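import Pool.Agent.MWK.Stmts

/-!
# MWK, row SDB: from a disagreement of type D to the word bit
-/

namespace Pool.Agent.MWK.H42

open Pool.Agent.Helper14_MV Pool.Agent.Helper2_MV

theorem cnt_d {w : List ℕ} {d y k : ℕ} {cs : List ℕ} (hd : d ∈ pre w y) (hc : Chc w [y] cs)
    (h1 : ∀ c, cs[k]? = some c → (pre w c).count d = 1) (h2 : cs[k]? = none → w.count d = 1) :
    (pre w y).count d = 1 := by
  have hpos : 0 < (pre w y).count d := List.count_pos_iff.2 hd
  rcases hcase : cs[k]? with _ | c
  · have h3 := h2 hcase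
    have h4 := count_pre_le w d y
    omega
  · have h3 := h1 c hcase
    have hmem := List.mem_of_getElem? hcase
    have h4 := hc.mem_pre y (by simp) c hmem
    have h5 := count_pre_mono h4 d
    omega

theorem split1 {w : List ℕ} {x d y : ℕ} (hwd : (pre w d).count x = 1) (hd : d ∈ pre w y)
    (hd1 : (pre w y).count d = 1) :
    ∃ U1 U2 C1, pre w y = U1 ++ x :: U2 ++ d :: C1 ∧ x ∉ U1 ∧ x ∉ U2 ∧ d ∉ U1 ∧ d ∉ U2 ∧
      d ∉ C1 ∧ x ≠ d := by
  obtain ⟨C1, hC⟩ := pre_mono hd
  have hx : x ∈ pre w d := mem_pre_of_count hwd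
  have hdn := not_mem_pre w d
  obtain ⟨U1, U2, e1, hU1⟩ := List.eq_append_cons_of_mem hx
  have hU2 : x ∉ U2 := by
    intro h
    have h1 : 0 < U2.count x := List.count_pos_iff.2 h
    rw [e1, List.count_append, List.count_cons_self] at hwd
    omega
  have hdC : d ∉ C1 := by
    intro h
    have h1 : 0 < C1.count d := List.count_pos_iff.2 h
    rw [hC, List.count_append, List.count_cons_self] at hd1
    omega
  have hxd : x ≠ d := by
    rintro rfl
    exact hdn hx
  rw [e1] at hC hdn
  refine ⟨U1, U2, C1, hC, hU1, hU2, ?_, ?_, hdC, hxd⟩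
  · intro h
    exact hdn (List.mem_append_left _ h)
  · intro h
    exact hdn (List.mem_append_right _ (List.mem_cons_of_mem _ h))

theorem fm_nil {l : List ℕ} {g : ℕ → List ℕ} (h : ∀ z ∈ l, g z = []) : l.flatMap g = [] :=
  List.flatMap_eq_nil_iff.2 h

theorem sdb (hF : FreStmt) (hV : CvdStmt) (hX : CrxStmt) (hA : AsgStmt) (hO : OkmStmt) :
    SdbStmt := by
  intro θ hK m e u v x d y cs hem huv hlen hud hvd hduy hdvy hxu hxv hyu hyv hcu hcv hcs hvx
    hk1 hk2
  -- positions in u
  have hdu1 : (pre u y).count d = 1 := cnt_d hduy hcu (fun c h => (hk1 c h).1)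
    (fun h => (hk2 h).1)
  have hdv1 : (pre v y).count d = 1 := cnt_d hdvy hcv (fun c h => (hk1 c h).2)
    (fun h => (hk2 h).2)
  obtain ⟨U1, U2, C1, eu, hxU1, hxU2, hdU1, hdU2, hdC1, hxd⟩ := split1 hud hduy hdu1
  obtain ⟨V1, V2, V3, ev, hxV1, hxV2, hdV1, hdV2, hdV3, -⟩ := split1 hvd hdvy hdv1
  have hyu' := not_mem_pre u y
  have hyv' := not_mem_pre v y
  have hdy : d ≠ y := by
    rintro rfl
    exact hyu' hduy
  have hxv' : x ∈ pre v y := mem_pre_of_count hxv
  have hxy : x ≠ y := by
    rintro rfl
    exact hyv' hxv'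
  have hcsu : ∀ c ∈ cs, c ∉ pre u y := fun c hc => pre_asymm (hcu.mem_pre y (by simp) c hc)
  have hycs : y ∉ cs := hcu.not_mem (by simp)
  have hxC1 : x ∈ C1 := by
    rw [eu, List.count_append, List.count_append, List.count_cons_self,
      List.count_cons_of_ne hxd.symm, List.count_eq_zero_of_not_mem hxU1,
      List.count_eq_zero_of_not_mem hxU2] at hxu
    exact List.count_pos_iff.1 (by omega)
  obtain ⟨U3, U4, e3, hxU3⟩ := List.eq_append_cons_of_mem hxC1
  obtain ⟨B, hB⟩ := mem_split hyu
  obtain ⟨B0, hB0⟩ := mem_split hyv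
  have hxV3 : x ∉ V3 := by
    intro h
    have h1 : 0 < V3.count x := List.count_pos_iff.2 h
    rw [ev, List.count_append, List.count_append, List.count_cons_self,
      List.count_cons_of_ne hxd.symm] at hxv
    omega
  have hxB0 : x ∈ B0 := by
    rw [hB0, List.count_append, List.count_cons_of_ne hxy.symm, hxv] at hvx
    exact List.count_pos_iff.1 (by omega)
  obtain ⟨V4, B', e4, hxV4⟩ := List.eq_append_cons_of_mem hxB0
  -- the initial part of v
  have ev1 : v = (pre v y ++ y :: V4) ++ (x :: B') := by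
    conv_lhs => rw [hB0, e4]
    simp
  have ev2 : v = (pre v y ++ y :: V4 ++ [x]) ++ B' := by
    conv_lhs => rw [ev1]
    simp
  have hxcs : x ∉ cs := by
    intro h
    have h1 := hcs x h
    rw [List.count_eq_zero_of_not_mem (not_mem_pre v x)] at h1
    omega
  have hcsv1 : ∀ c ∈ cs, c ∉ pre v y ++ y :: V4 := by
    intro c hc hm
    have h1 := hcs c hc
    rw [pre_of_prefix ev1 hm] at h1
    have h2 := count_pre_le (pre v y ++ y :: V4) x c
    rw [List.count_append, List.count_cons_of_ne hxy.symm, hxv,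
      List.count_eq_zero_of_not_mem hxV4] at h2
    omega
  have hcsv2 : ∀ c ∈ cs, c ∉ pre v y ++ y :: V4 ++ [x] := by
    intro c hc hm
    rcases List.mem_append.1 hm with h | h
    · exact hcsv1 c hc h
    · rw [List.mem_singleton] at h
      rw [h] at hc
      exact hxcs hc
  have hboth : V4.count y = 0 ∧ V4.count d = 0 := by
    have key : ∀ w : List ℕ, (∃ E, w = (pre v y ++ y :: V4 ++ [x]) ++ E) → w.count y ≤ 1 →
        w.count d ≤ 1 → V4.count y = 0 ∧ V4.count d = 0 := by
      rintro w ⟨E, hE⟩ h1 h2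
      rw [hE] at h1 h2
      simp only [List.count_append, List.count_cons_self] at h1
      rw [List.count_append, List.count_append, List.count_append,
        List.count_cons_of_ne hdy.symm, hdv1] at h2
      constructor <;> omega
    cases hcs' : cs with
    | nil =>
      rw [hcs'] at hcv
      have h1 : v.count y = 1 := hcv y (by simp)
      have h2 : v.count d = 1 := (hk2 (by rw [hcs']; simp)).2
      exact key v ⟨B', ev2⟩ (by omega) (by omega)
    | cons c cs2 =>
      have hcm : c ∈ cs := by rw [hcs']; simp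
      have hcv2 := hcv
      rw [hcs'] at hcv2
      have h1 : (pre v c).count y = 1 := hcv2.1 y (by simp)
      have h2 : (pre v c).count d ≤ 1 := by
        rcases hcase : cs[m + 1 - e]? with _ | c'
        · have h3 := (hk2 hcase).2
          have h4 := count_pre_le v d c
          omega
        · have h3 := (hk1 c' hcase).2
          have hmem := List.mem_of_getElem? hcase
          rw [hcs'] at hmem
          rcases List.mem_cons.1 hmem with h4 | h4
          · rw [← h4]
            omega
          · have h5 := Chc.mem_pre hcv2.2.2 c (by simp) c' h4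
            have h6 := count_pre_mono h5 d
            omega
      have h3 : pre v c = (pre v y ++ y :: V4 ++ [x]) ++ pre B' c := by
        conv_lhs => rw [ev2]
        rw [pre_append (hcsv2 c hcm)]
      exact key (pre v c) ⟨pre B' c, h3⟩ (by omega) h2
  have hyV4 : y ∉ V4 := List.count_eq_zero.1 hboth.1
  have hdV4 : d ∉ V4 := List.count_eq_zero.1 hboth.2
  -- chains
  have hchu : Chd d (m + 1 - e) [y] cs B := by
    apply hV cs (m + 1 - e) d [y] u (pre u y ++ [y]) B
    · conv_lhs => rw [hB]
      simp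
    · intro z hz
      rw [List.mem_singleton] at hz
      rw [hz, List.count_append, List.count_eq_zero_of_not_mem hyu']
      simp
    · rw [List.count_append, hdu1, List.count_eq_zero_of_not_mem
        (by rw [List.mem_singleton]; exact hdy)]
    · intro c hc hm
      rcases List.mem_append.1 hm with h | h
      · exact hcsu c hc h
      · rw [List.mem_singleton] at h
        rw [h] at hc
        exact hycs hc
    · exact hcu
    · exact fun c h => (hk1 c h).1
    · exact fun h => (hk2 h).1
  have hchv : Chd d (m + 1 - e) [y] cs B' := by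
    apply hV cs (m + 1 - e) d [y] v (pre v y ++ y :: V4 ++ [x]) B'
    · exact ev2
    · intro z hz
      rw [List.mem_singleton] at hz
      rw [hz, List.count_append, List.count_append, List.count_cons_self,
        List.count_eq_zero_of_not_mem hyv', hboth.1, List.count_eq_zero_of_not_mem
        (by rw [List.mem_singleton]; exact hxy.symm)]
    · rw [List.count_append, List.count_append, List.count_cons_of_ne hdy.symm, hdv1, hboth.2,
        List.count_eq_zero_of_not_mem (by rw [List.mem_singleton]; exact hxd.symm)]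
    · exact hcsv2
    · exact hcv
    · exact fun c h => (hk1 c h).2
    · exact fun h => (hk2 h).2
  have hdcs : d ∉ cs := fun h => hcsu d h hduy
  have hnd : (x :: d :: y :: cs).Nodup := by
    rw [List.nodup_cons, List.nodup_cons, List.nodup_cons]
    refine ⟨?_, ?_, hycs, hcu.nodup⟩
    · simp only [List.mem_cons]
      push Not
      exact ⟨hxd, hxy, hxcs⟩
    · simp only [List.mem_cons]
      push Not
      exact ⟨hdy, hdcs⟩
  -- reading
  intro P X D C qs R hqs hok hD
  obtain ⟨g, hg1, hg2⟩ := hA (x :: d :: y :: cs) (X :: D :: C :: qs) hnd (by simp [hlen, hqs])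
  simp only [List.map_cons, List.cons.injEq] at hg1
  obtain ⟨hgx, hgd, hgy, hgc⟩ := hg1
  have hempty : ∀ l : List ℕ, x ∉ l → d ∉ l → y ∉ l → (∀ c ∈ cs, c ∉ l) →
      l.flatMap g = [] := by
    intro l h1 h2 h3 h4
    apply fm_nil
    intro z hz
    apply hg2
    intro hm
    rcases List.mem_cons.1 hm with h | hm
    · rw [h] at hz
      exact h1 hz
    rcases List.mem_cons.1 hm with h | hm
    · rw [h] at hz
      exact h2 hz
    rcases List.mem_cons.1 hm with h | hm
    · rw [h] at hz
      exact h3 hz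
    · exact h4 z hm hz
  have hsub : ∀ z, z ≠ x → z ≠ d → z ≠ y → z ∉ cs → g z = [] := by
    intro z h1 h2 h3 h4
    apply hg2
    simp only [List.mem_cons]
    push Not
    exact ⟨h1, h2, h3, h4⟩
  have hk3 : m + 1 - e + 1 = m + 2 - e := by omega
  have htk : ∀ n, (cs.take n).map g = qs.take n := by
    intro n
    rw [List.map_take, hgc]
  -- the word u
  rw [eu] at hyu' hcsu hB
  have e3' : C1 = U3 ++ x :: U4 := e3
  have mU1 : ∀ z ∈ U1, z ∈ U1 ++ x :: U2 ++ d :: C1 := by
    intro z hz
    simp [hz]
  have mU2 : ∀ z ∈ U2, z ∈ U1 ++ x :: U2 ++ d :: C1 := by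
    intro z hz
    simp [hz]
  have mU3 : ∀ z ∈ U3, z ∈ U1 ++ x :: U2 ++ d :: C1 := by
    intro z hz
    rw [e3']
    simp [hz]
  have mU4 : ∀ z ∈ U4, z ∈ U1 ++ x :: U2 ++ d :: C1 := by
    intro z hz
    rw [e3']
    simp [hz]
  have hdU3 : d ∉ U3 := fun h => hdC1 (by rw [e3']; exact List.mem_append_left _ h)
  have hdU4 : d ∉ U4 := fun h => hdC1 (by
    rw [e3']
    exact List.mem_append_right _ (List.mem_cons_of_mem _ h))
  have f1 : U1.flatMap g = [] := hempty U1 hxU1 hdU1 (fun h => hyu' (mU1 _ h))
    (fun c hc h => hcsu c hc (mU1 _ h))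
  have f2 : U2.flatMap g = [] := hempty U2 hxU2 hdU2 (fun h => hyu' (mU2 _ h))
    (fun c hc h => hcsu c hc (mU2 _ h))
  have f3 : U3.flatMap g = [] := hempty U3 hxU3 hdU3 (fun h => hyu' (mU3 _ h))
    (fun c hc h => hcsu c hc (mU3 _ h))
  have readu : P ++ u.flatMap g ++ R = (P ++ X ++ D ++ X) ++ U4.flatMap g ++
      (C ++ B.flatMap g ++ R) := by
    rw [hB, e3']
    simp only [List.flatMap_append, List.flatMap_cons, f1, f2, f3, hgx, hgd, hgy,
      List.nil_append, List.append_assoc]
  have hcX : ∀ l ∈ X, 2 ≤ (P ++ X ++ D ++ X).count l := by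
    intro l hl
    have h1 : 0 < X.count l := List.count_pos_iff.2 hl
    simp only [List.count_append]
    omega
  have s1 : RR θ ((P ++ X ++ D ++ X) ++ U4.flatMap g ++ (C ++ B.flatMap g ++ R))
      ((P ++ X ++ D ++ X) ++ (C ++ B.flatMap g ++ R)) := by
    apply hF θ hK
    intro l hl
    rw [List.mem_flatMap] at hl
    obtain ⟨z, hz, hl⟩ := hl
    by_cases hzx : z = x
    · rw [hzx, hgx] at hl
      exact hcX l hl
    · have h1 : g z = [] := hsub z hzx
        (fun h => hdU4 (by rw [← h]; exact hz))
        (fun h => hyu' (by rw [← h]; exact mU4 _ hz))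
        (fun h => hcsu z h (mU4 _ hz))
      rw [h1] at hl
      simp at hl
  have s2 : RR θ ((P ++ X ++ D ++ X ++ C) ++ B.flatMap g)
      ((P ++ X ++ D ++ X ++ C) ++ (cs.map g).flatten) := by
    apply hX θ hK g d cs (m + 1 - e) [y] B _ hchu
    · intro z _
      by_cases h1 : z = x
      · right; right; right; right
        rw [h1, hgx]
        intro l hl
        have := hcX l hl
        rw [List.count_append]
        omega
      by_cases h2 : z = d
      · exact Or.inr (Or.inl h2)
      by_cases h3 : z = y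
      · exact Or.inr (Or.inr (Or.inl (by rw [h3]; simp)))
      by_cases h4 : z ∈ cs
      · exact Or.inr (Or.inr (Or.inr (Or.inl h4)))
      · exact Or.inl (hsub z h1 h2 h3 h4)
    · have e5 : [y].flatMap g = C := by simp [hgy]
      rw [e5, hgc]
      exact hok
    · intro hlt l hl
      rw [hgd] at hl
      rw [htk, hk3]
      exact hD (by omega) l hl
  -- the word v
  rw [ev] at hyv' hB0 hcsv1
  have mV1 : ∀ z ∈ V1, z ∈ V1 ++ x :: V2 ++ d :: V3 := by
    intro z hz
    simp [hz]
  have mV2 : ∀ z ∈ V2, z ∈ V1 ++ x :: V2 ++ d :: V3 := by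
    intro z hz
    simp [hz]
  have mV3 : ∀ z ∈ V3, z ∈ V1 ++ x :: V2 ++ d :: V3 := by
    intro z hz
    simp [hz]
  have g1 : V1.flatMap g = [] := hempty V1 hxV1 hdV1 (fun h => hyv' (mV1 _ h))
    (fun c hc h => hcsv1 c hc (List.mem_append_left _ (mV1 _ h)))
  have g2 : V2.flatMap g = [] := hempty V2 hxV2 hdV2 (fun h => hyv' (mV2 _ h))
    (fun c hc h => hcsv1 c hc (List.mem_append_left _ (mV2 _ h)))
  have g3 : V3.flatMap g = [] := hempty V3 hxV3 hdV3 (fun h => hyv' (mV3 _ h))
    (fun c hc h => hcsv1 c hc (List.mem_append_left _ (mV3 _ h)))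
  have g4 : V4.flatMap g = [] := hempty V4 hxV4 hdV4 hyV4
    (fun c hc h => hcsv1 c hc (List.mem_append_right _ (List.mem_cons_of_mem _ h)))
  have readv : P ++ v.flatMap g ++ R = (P ++ X ++ D ++ C ++ X) ++ B'.flatMap g ++ R := by
    rw [hB0, e4]
    simp only [List.flatMap_append, List.flatMap_cons, g1, g2, g3, g4, hgx, hgd, hgy,
      List.nil_append, List.append_assoc]
  have hcnt : ∀ l, (P ++ X ++ D ++ X ++ C).count l = (P ++ X ++ D ++ C ++ X).count l := by
    intro l
    simp only [List.count_append]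
    omega
  have s3 : RR θ ((P ++ X ++ D ++ C ++ X) ++ B'.flatMap g)
      ((P ++ X ++ D ++ C ++ X) ++ (cs.map g).flatten) := by
    apply hX θ hK g d cs (m + 1 - e) [y] B' _ hchv
    · intro z _
      by_cases h1 : z = x
      · right; right; right; right
        rw [h1, hgx]
        intro l hl
        have h5 := hcX l hl
        have h6 := hcnt l
        rw [List.count_append] at h6
        omega
      by_cases h2 : z = d
      · exact Or.inr (Or.inl h2)
      by_cases h3 : z = y
      · exact Or.inr (Or.inr (Or.inl (by rw [h3]; simp)))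
      by_cases h4 : z ∈ cs
      · exact Or.inr (Or.inr (Or.inr (Or.inl h4)))
      · exact Or.inl (hsub z h1 h2 h3 h4)
    · have e5 : [y].flatMap g = C := by simp [hgy]
      rw [e5, hgc]
      exact hO qs _ _ C C hok (fun l => le_of_eq (hcnt l)) (fun z hz => hz)
    · intro hlt l hl
      rw [hgd] at hl
      rw [htk, hk3]
      have h5 := hD (by omega) l hl
      rw [List.count_append] at h5 ⊢
      rw [← hcnt]
      exact h5
  -- together
  have t0 : RR θ (P ++ u.flatMap g ++ R) (P ++ v.flatMap g ++ R) :=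
    ((RR.refl P).append (huv.sub g)).append (RR.refl R)
  rw [readu, readv] at t0
  have t1 : RR θ ((P ++ X ++ D ++ X) ++ (C ++ B.flatMap g ++ R))
      (P ++ X ++ D ++ X ++ C ++ qs.flatten ++ R) := by
    have h1 := s2.append (RR.refl R)
    rw [hgc] at h1
    have e6 : (P ++ X ++ D ++ X) ++ (C ++ B.flatMap g ++ R) =
        (P ++ X ++ D ++ X ++ C) ++ B.flatMap g ++ R := by
      simp only [List.append_assoc]
    rw [e6]
    exact h1
  have t2 : RR θ ((P ++ X ++ D ++ C ++ X) ++ B'.flatMap g ++ R)
      (P ++ X ++ D ++ C ++ X ++ qs.flatten ++ R) := by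
    have h1 := s3.append (RR.refl R)
    rw [hgc] at h1
    exact h1
  exact θ.trans (θ.trans (θ.trans t1.symm s1.symm) t0) t2

end Pool.Agent.MWK.H42
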